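import Pool.Agent.Lib.MP_1e2f52_ag.Locus

/-!
# The Cohen-Macaulay locus in families of nilpotent matrices

For every system of polynomial equations `h t u = 0` with parameters `t` and unknowns `u` there are
a permutation `w` and a family `X t` of nilpotent matrices, whose entries are polynomials of degree
at most one in `t`, such that the closure of `C_w ∩ S_X` for `X = X t` is Cohen-Macaulay if and only
if it is Gorenstein if and only if the system with parameter `t` has no solution `u`.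
-/

open MvPolynomial Pool.Agent.Lib.MP_1e2f52_ag

namespace Pool.Agent.Results.MP_1e2f52_ag.CMLocus

theorem result (q p l : ℕ) (h : Fin l → MvPolynomial (Fin q ⊕ Fin p) ℂ) :
    ∃ (n : ℕ) (w : Equiv.Perm (Fin n)) (X0 : Matrix (Fin n) (Fin n) ℂ)
      (X1 : Fin q → Matrix (Fin n) (Fin n) ℂ), ∀ t : Fin q → ℂ,
        IsNilpotent (X0 + ∑ i, t i • X1 i) ∧ permMat w ∈ springer (X0 + ∑ i, t i • X1 i) ∧
        (ClosureCM (X0 + ∑ i, t i • X1 i) w ↔
          ¬ ∃ u : Fin p → ℂ, ∀ j, eval (Sum.elim t u) (h j) = 0) ∧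
        (ClosureGor (X0 + ∑ i, t i • X1 i) w ↔
          ¬ ∃ u : Fin p → ℂ, ∀ j, eval (Sum.elim t u) (h j) = 0) := by
  obtain ⟨n, k, w, X0, X1, hX⟩ := exists_par' (m := q + p + 2) (sysEq h) (by
    intro j
    refine Fin.cases ?_ (fun j => Fin.cases ?_ (fun j => ?_) j) j
    · simp [sysEq, zero_ne_A.symm]
    · simp [sysEq, zero_ne_A.symm]
    · simp [sysEq, zero_ne_A.symm]) cT (fun _ => cA 0) (fun _ => Fin.succ_ne_zero _)
    (fun _ => Fin.succ_ne_zero _) (fun _ => cT_ne_A)
  refine ⟨n, w, X0, X1, fun t => ?_⟩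
  obtain ⟨h1, h2, h3⟩ := hX t
  exact ⟨h1, h2, h3.closureCM_iff.trans (sys_iff h t).1, h3.closureGor_iff.trans (sys_iff h t).2⟩

end Pool.Agent.Results.MP_1e2f52_ag.CMLocus
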