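import Pool.Agent.Lib.MP_1e2f52_ag.UnivCM

/-!
# Universality of the closures of Springer Schubert cells

For every projective variety `Z` there are a nilpotent matrix `X` and a permutation `w` such that
the local rings of the closure of `C_w ∩ S_X` are exactly the local rings of the product of `Z` with
an affine space.  So the closure is Cohen-Macaulay (Gorenstein) if and only if `Z` is.
-/

open MvPolynomial Pool.Agent.Lib.MP_1e2f52_ag

namespace Pool.Agent.Results.MP_1e2f52_ag.ClosureUniversality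

/-- Let `K = zeroLocus I` be the affine cone of a nonempty projective variety `Z`.  There are
`n`, `k`, a nilpotent `X` and a permutation `w` with `w B` in the Springer fiber of `X` such that
the local rings of the closure of `C_w ∩ S_X` are, up to isomorphism, exactly the local rings of
the products of the affine charts `{z ∈ K | z i = 1}` of `Z` with the affine space of dimension `k`
(at the points `(z, 0)`).  The closure is Cohen-Macaulay (Gorenstein) if and only if `Z` is. -/
theorem result (m : ℕ) (I : Ideal (MvPolynomial (Fin (m + 2)) ℂ))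
    (hcone : ∀ z ∈ zeroLocus ℂ I, ∀ c : ℂ, c • z ∈ zeroLocus ℂ I)
    (hne : ∃ z ∈ zeroLocus ℂ I, z ≠ 0) :
    ∃ (n k : ℕ) (X : Matrix (Fin n) (Fin n) ℂ) (w : Equiv.Perm (Fin n)),
      IsNilpotent X ∧ permMat w ∈ springer X ∧
      (∀ g : Matrix (Fin n) (Fin n) ℂ, IsUnit g.det → ∀ a ∈ chart X w g,
        ∃ i, ∃ z ∈ zeroLocus ℂ I, z i = 1 ∧
          Nonempty (Germ (chart X w g) a ≃+*
            Germ (cyl {z | z ∈ zeroLocus ℂ I ∧ z i = 1} (Fin k)) (Sum.elim z 0))) ∧
      (∀ i, ∀ z ∈ zeroLocus ℂ I, z i = 1 →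
        ∃ g : Matrix (Fin n) (Fin n) ℂ, IsUnit g.det ∧ ∃ a ∈ chart X w g,
          Nonempty (Germ (chart X w g) a ≃+*
            Germ (cyl {z | z ∈ zeroLocus ℂ I ∧ z i = 1} (Fin k)) (Sum.elim z 0))) ∧
      (ClosureCM X w ↔ ∀ i, AffineCM {z | z ∈ zeroLocus ℂ I ∧ z i = 1}) ∧
      (ClosureGor X w ↔ ∀ i, AffineGor {z | z ∈ zeroLocus ℂ I ∧ z i = 1}) := by
  obtain ⟨n, k, X, w, h1, h2, h3⟩ := exists_germs (zeroLocus_closed I) hcone hne
  exact ⟨n, k, X, w, h1, h2, h3.1, h3.2, h3.closureCM_iff, h3.closureGor_iff⟩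

end Pool.Agent.Results.MP_1e2f52_ag.ClosureUniversality
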