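import Pool.Agent.Lib.MP_1e2f52_ag.Main
import Pool.Agent.Lib.MP_1e2f52_ag.Gor

/-!
# Universality of Springer Schubert cells

Every nonempty affine variety `Y` over the complex numbers occurs, up to a product with an affine
space, as a Springer Schubert cell `C_w ∩ S_X` with `w` the Grassmannian permutation exchanging the
two halves of the index set and with `X` cubing to zero.  So the closure can be Cohen-Macaulay
(or Gorenstein) only if `Y` is.
-/

open MvPolynomial Pool.Agent.Lib.MP_1e2f52_ag

namespace Pool.Agent.Results.MP_1e2f52_ag.Universality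

/-- For every ideal `J` of a polynomial ring over the complex numbers with nonempty zero locus `Y`
there are `n = 2N`, a matrix `X` with cube zero and the permutation `w = (N+1, ..., 2N, 1, ..., N)`
such that the permutation flag of `w` lies in the Springer fiber of `X` and the Springer Schubert
cell of `(X, w)`, in the coordinates of the affine chart `w U⁻ B / B`, is isomorphic to the product
of `Y` with an affine space. -/
theorem result (m : ℕ) (J : Ideal (MvPolynomial (Fin m) ℂ)) (hJ : (zeroLocus ℂ J).Nonempty) :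
    ∃ (N k : ℕ) (X : Matrix (Fin (N + N)) (Fin (N + N)) ℂ) (w : Equiv.Perm (Fin (N + N))),
      (∀ i : Fin N, w (Fin.castAdd N i) = Fin.natAdd N i ∧ w (Fin.natAdd N i) = Fin.castAdd N i) ∧
      X ^ 3 = 0 ∧ permMat w ∈ springer X ∧
      (∀ g, g ∈ cell X w ↔ ∃ a ∈ chart X w (permMat w), ∃ c, IsUpper c ∧ IsUnit c.det ∧
        g = permMat w * unip a * c) ∧
      PolyIso (chart X w (permMat w)) (cyl (zeroLocus ℂ J) (Fin k)) ∧
      (AffineCM (chart X w (permMat w)) ↔ AffineCM (zeroLocus ℂ J)) ∧
      (AffineGor (chart X w (permMat w)) → AffineGor (zeroLocus ℂ J)) ∧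
      (ClosureCM X w → AffineCM (zeroLocus ℂ J)) ∧
      (ClosureGor X w → AffineGor (zeroLocus ℂ J)) := by
  obtain ⟨N, k, A, h1, h2, h3⟩ := murphy J hJ
  have hcm : AffineCM (chart A (flip N) (permMat (flip N))) ↔ AffineCM (zeroLocus ℂ J) :=
    (affineCM_of_polyIso h3).trans (affineCM_cyl _ k)
  have hgor : AffineGor (chart A (flip N) (permMat (flip N))) → AffineGor (zeroLocus ℂ J) :=
    fun h => affineGor_cyl _ k (affineGor_of_polyIso h3 h)
  have hdet : IsUnit (permMat (flip N)).det := h2.1
  refine ⟨N, k, A, flip N, fun i => ⟨?_, ?_⟩, ?_, h2, fun g => mem_cell_iff, h3, hcm, hgor,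
    fun h => hcm.1 (h _ hdet), fun h => hgor (h _ hdet)⟩
  · exact finAddFlip_apply_castAdd i N
  · exact finAddFlip_apply_natAdd i N
  · rw [pow_succ, pow_two]
    exact h1

end Pool.Agent.Results.MP_1e2f52_ag.Universality
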